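import Pool.Agent.Gen.TY.T0.Run4
import Pool.Agent.Gen.TY.T0.Run6
import Pool.Agent.Helper25.TY.T0Fin

/-!
MP_8ee768_co, project TH-Y', stage 0: the ten counts with `MM ≤ 6` and the four counts with
`MM ≤ 4`.
-/

set_option autoImplicit false

namespace Pool.Agent.Gen.TY.T0

open Pool.Agent.Helper25.TY

theorem subs6 : Subs6 :=
  ⟨subA1, subA2, subA3, subA4, subA5a, subA5b, subA5c, subA6, subB1, subB2, subB3, subB4⟩

theorem subs4 : Subs4 := ⟨subC1, subC2a, subC2b, subC2c, subD1, subD2⟩

/-- **the ten counts with `MM ≤ 6`** -/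
theorem counts : Pool.Agent.Helper16.TY.Counts := counts_of_subs subs6

/-- **the two counts with `MM ≤ 4` over REP(A)** -/
theorem countA : Pool.Agent.Helper25.EN.CountA := countA_of_subs subs4

/-- **the two counts with `MM ≤ 4` over REP(B)** -/
theorem countB : Pool.Agent.Helper25.EN.CountB := countB_of_subs subs4

end Pool.Agent.Gen.TY.T0
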